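import Pool.Agent.Lib.MP_ceba03_an.TorusAux

set_option autoImplicit false

open MeasureTheory AddCircle

namespace Pool.Agent.Results.MP_ceba03_an.TwoElementClasses

open Pool.Agent.Lib.MP_ceba03_an

theorem two_pi_pos : Fact (0 < 2 * Real.pi) := ⟨Real.two_pi_pos⟩

/-- The circle `𝕋 = ℝ/2πℤ`. -/
abbrev Torus : Type := AddCircle (2 * Real.pi)

/-- The normalised Haar measure of `𝕋`. -/
noncomputable abbrev haar : Measure Torus := @AddCircle.haarAddCircle (2 * Real.pi) two_pi_pos

/-- The `n`-th Fourier coefficient `f̂(n)`. -/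
noncomputable def coeff (f : Torus → ℂ) (n : ℤ) : ℂ :=
  @fourierCoeff (2 * Real.pi) two_pi_pos ℂ _ _ f n

/-- The convolution `(f * g)(x) = ∫ f (x - y) g y dy`. -/
noncomputable def conv (f g : Torus → ℂ) (x : Torus) : ℂ :=
  ∫ y, f (x - y) * g y ∂haar

/-- Closed subalgebras of `L¹(𝕋)`, given by the set `A` of the functions whose class belongs to the
subalgebra. -/
structure IsClosedSubalgebra (A : Submodule ℂ (Torus → ℂ)) : Prop where
  /-- the elements are integrable functions -/
  integrable : ∀ f ∈ A, Integrable f haar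
  /-- the subspace is closed for the `L¹` distance (so it depends on classes only) -/
  closed : ∀ f : Torus → ℂ, Integrable f haar →
    (∀ ε : ℝ, 0 < ε → ∃ g ∈ A, ∫ x, ‖f x - g x‖ ∂haar < ε) → f ∈ A
  /-- the subspace is stable under convolution -/
  conv_mem : ∀ f ∈ A, ∀ g ∈ A, conv f g ∈ A

/-- The idempotent elements of `A`. -/
def idempotents (A : Submodule ℂ (Torus → ℂ)) : Set (Torus → ℂ) :=
  {e | e ∈ A ∧ conv e e =ᵐ[haar] e}

/-- `A` is generated by its idempotents: it is the smallest closed subalgebra that contains every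
idempotent element of `A`. -/
def GeneratedByIdempotents (A : Submodule ℂ (Torus → ℂ)) : Prop :=
  IsLeast {B : Submodule ℂ (Torus → ℂ) | IsClosedSubalgebra B ∧ idempotents A ⊆ B} A

/-- The equivalence relation `r(𝔄)` on `ℤ`: `m ∼ n` if `f̂(m) = f̂(n)` for all `f` in `𝔄`. -/
def rudin (A : Submodule ℂ (Torus → ℂ)) : Setoid ℤ where
  r m n := ∀ f ∈ A, coeff f m = coeff f n
  iseqv :=
    { refl := fun _ _ _ => rfl
      symm := fun h f hf => (h f hf).symm
      trans := fun h h' f hf => (h f hf).trans (h' f hf) }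

/-! ### The proof -/

/-- The functions whose class belongs to `A₁`. -/
def lift (A₁ : Submodule ℂ TorusAux.L1) : Submodule ℂ (Torus → ℂ) where
  carrier := {f | ∃ hf : Integrable f haar, hf.toL1 f ∈ A₁}
  zero_mem' := by
    refine ⟨integrable_zero _ _ _, ?_⟩
    exact A₁.zero_mem
  add_mem' := by
    rintro f g ⟨hf, hf'⟩ ⟨hg, hg'⟩
    refine ⟨hf.add hg, ?_⟩
    exact A₁.add_mem hf' hg'
  smul_mem' := by
    rintro c f ⟨hf, hf'⟩
    refine ⟨hf.smul c, ?_⟩
    exact A₁.smul_mem c hf'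

lemma coeff_toL1 (f : Torus → ℂ) (hf : Integrable f haar) (n : ℤ) :
    fourierCoeff ((hf.toL1 f : TorusAux.L1) : Torus → ℂ) n = coeff f n :=
  congrFun (fourierCoeff_congr_ae hf.coeFn_toL1) n

lemma conv_congr {f f' g g' : Torus → ℂ} (hf : f =ᵐ[haar] f') (hg : g =ᵐ[haar] g') :
    conv f g = conv f' g' := by
  have : Fact (0 < 2 * Real.pi) := two_pi_pos
  ext x
  have h1 : (fun y => f (x - y)) =ᵐ[haar] (fun y => f' (x - y)) := by
    have hq : Measure.QuasiMeasurePreserving (fun y : Torus => x - y) haar haar :=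
      quasiMeasurePreserving_sub_left _ x
    exact hq.ae_eq hf
  unfold conv
  apply integral_congr_ae
  filter_upwards [h1, hg] with y h2 h3
  rw [h2, h3]

lemma toL1_conv (f g : Torus → ℂ) (hf : Integrable f haar) (hg : Integrable g haar) :
    ∃ h : Integrable (conv f g) haar, (h.toL1 (conv f g) : TorusAux.L1) =
      TorusAux.conv (hf.toL1 f) (hg.toL1 g) := by
  have h0 : conv f g = TorusAux.convFun (hf.toL1 f : TorusAux.L1) (hg.toL1 g : TorusAux.L1) :=
    conv_congr (Filter.EventuallyEq.symm hf.coeFn_toL1) (Filter.EventuallyEq.symm hg.coeFn_toL1)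
  have h1 := TorusAux.integrable_convFun (hf.toL1 f : TorusAux.L1) (hg.toL1 g : TorusAux.L1)
  have h2 : Integrable (conv f g) haar := by rw [h0]; exact h1
  refine ⟨h2, ?_⟩
  apply (Integrable.toL1_eq_toL1_iff _ _ h2 h1).2
  rw [h0]

lemma lift_closed (A₁ : Submodule ℂ TorusAux.L1) (hA : TorusAux.IsClosedSubalgebra A₁) :
    IsClosedSubalgebra (lift A₁) := by
  refine ⟨fun f hf => hf.1, ?_, ?_⟩
  · intro f hf h
    refine ⟨hf, ?_⟩
    have h1 : (hf.toL1 f : TorusAux.L1) ∈ closure (A₁ : Set TorusAux.L1) := by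
      rw [Metric.mem_closure_iff]
      intro ε hε
      obtain ⟨g, ⟨hg, hg'⟩, hlt⟩ := h ε hε
      refine ⟨hg.toL1 g, hg', ?_⟩
      rw [dist_eq_norm]
      have h2 : ‖(hf.toL1 f : TorusAux.L1) - hg.toL1 g‖ = ∫ x, ‖f x - g x‖ ∂haar := by
        have h3 : (hf.toL1 f : TorusAux.L1) - hg.toL1 g = (hf.sub hg).toL1 (f - g) := rfl
        rw [h3, L1.norm_eq_integral_norm]
        apply integral_congr_ae
        filter_upwards [(hf.sub hg).coeFn_toL1] with x hx
        rw [hx, Pi.sub_apply]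
      rw [h2]
      exact hlt
    rwa [hA.closed.closure_eq] at h1
  · rintro f ⟨hf, hf'⟩ g ⟨hg, hg'⟩
    obtain ⟨h1, h2⟩ := toL1_conv f g hf hg
    refine ⟨h1, ?_⟩
    rw [h2]
    exact hA.conv_mem _ hf' _ hg'

/-- **Kahane's question.** There is a closed subalgebra of `L¹(𝕋)` that is not generated by its
idempotents and all of whose finite Rudin classes have at most two elements. -/
theorem result : ∃ A : Submodule ℂ (Torus → ℂ), IsClosedSubalgebra A ∧
    ¬ GeneratedByIdempotents A ∧ ∀ S ∈ (rudin A).classes, S.Finite → S.ncard ≤ 2 := by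
  obtain ⟨A₁, hA, hne, hS⟩ := TorusAux.main
  -- every element of `L¹` is the class of a function
  have hrep : ∀ f₁ : TorusAux.L1, f₁ ∈ A₁ → (f₁ : Torus → ℂ) ∈ lift A₁ := by
    intro f₁ hf₁
    refine ⟨L1.integrable_coeFn f₁, ?_⟩
    rw [Integrable.toL1_coeFn]
    exact hf₁
  refine ⟨lift A₁, lift_closed A₁ hA, ?_, ?_⟩
  · intro hleast
    apply hne
    apply le_antisymm
    · have hB := (TorusAux.generated_isLeast (TorusAux.idempotents A₁)).1
      have h1 : lift A₁ ≤ lift (TorusAux.generated (TorusAux.idempotents A₁)) := by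
        apply hleast.2
        refine ⟨lift_closed _ hB.1, ?_⟩
        rintro e ⟨⟨he, he'⟩, hid⟩
        refine ⟨he, hB.2 ⟨he', ?_⟩⟩
        obtain ⟨h2, h3⟩ := toL1_conv e e he he
        rw [← h3]
        exact (Integrable.toL1_eq_toL1_iff _ _ h2 he).2 hid
      intro f₁ hf₁
      obtain ⟨h2, h3⟩ := h1 (hrep f₁ hf₁)
      rw [Integrable.toL1_coeFn] at h3
      exact h3
    · exact (TorusAux.generated_isLeast _).2 ⟨hA, fun e he => he.1⟩
  · rintro S ⟨n, rfl⟩ hfin
    have h1 : {m : ℤ | (rudin (lift A₁)) m n} = {m : ℤ | (TorusAux.rudin A₁) m n} := by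
      ext m
      constructor
      · intro h f₁ hf₁
        exact h _ (hrep f₁ hf₁)
      · rintro h f ⟨hf, hf'⟩
        rw [← coeff_toL1 f hf, ← coeff_toL1 f hf]
        exact h _ hf'
    rw [h1] at hfin ⊢
    exact hS _ ⟨n, rfl⟩ hfin

end Pool.Agent.Results.MP_ceba03_an.TwoElementClasses
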